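import Pool.Agent.Helper60.MA.Hull
import Pool.Agent.Helper60.MA.Flag

/-!
# MP_a38aea_lc, block EXT: extension of stems
-/

set_option linter.unusedSectionVars false
set_option linter.unusedVariables false

namespace Pool.Agent.Helper60.MA

variable {Ω L : Type} [LinearOrder Ω] [LinearOrder L]

namespace EXT

variable [WellFoundedLT Ω] {S : Sys Ω L}

/-- a name is decided at a bit -/
theorem decide_one {c : Ω} {x : Ω} (hx : S.Nme c x) {p : Cd Ω} (hp : S.CondB c p) (k : ℕ) :
    ∃ q i, S.CondB c q ∧ S.Le q p ∧ S.Says (S.LeB c q) x k i := by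
  obtain ⟨n, r, h1, h2, h3⟩ := hx.pre k p hp
  exact ⟨r, _, h1, h2, n, rfl, h3.leB c⟩

theorem says_of_le {c : Ω} {q p : Cd Ω} (h : S.Le q p) {x : Ω} {k : ℕ} {i : Bool}
    (hs : S.Says (S.LeB c p) x k i) : S.Says (S.LeB c q) x k i :=
  hs.mono fun _ hd => (h.leB c).trans hd

/-- a name is decided on an interval -/
theorem decide_many {c : Ω} {x : Ω} (hx : S.Nme c x) (m : ℕ) : ∀ {p : Cd Ω}, S.CondB c p →
    ∃ q, S.CondB c q ∧ S.Le q p ∧ ∃ f : ℕ → Bool, ∀ k < m, S.Says (S.LeB c q) x k (f k) := by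
  induction m with
  | zero => exact fun {p} hp => ⟨p, hp, Sys.Le.refl p, fun _ => false, fun k hk => by omega⟩
  | succ m ih =>
    intro p hp
    obtain ⟨q, h1, h2, f, h3⟩ := ih hp
    obtain ⟨r, i, h4, h5, h6⟩ := decide_one hx h1 m
    refine ⟨r, h4, h5.trans h2, fun k => if k < m then f k else i, fun k hk => ?_⟩
    by_cases hkm : k < m
    · simp only [hkm, if_true]
      exact says_of_le h5 (h3 k hkm)
    · have : k = m := by omega
      subst this
      simpa using h6

/-- two ones of the partition beyond a given bound -/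
theorem decide_part {c : Ω} (hv : S.Val c) {p : Cd Ω} (hp : S.CondB c p) (m : ℕ) :
    ∃ q u v, S.CondB c q ∧ S.Le q p ∧ m ≤ u ∧ u < v ∧ S.Says (S.LeB c q) (S.nam c) u true ∧
      S.Says (S.LeB c q) (S.nam c) v true := by
  obtain ⟨q, u, h1, h2, h3, h4⟩ := hv.part p hp m
  obtain ⟨r, v, h5, h6, h7, h8⟩ := hv.part q h1 (u + 1)
  refine ⟨r, u, v, h5, h6.trans h2, h3, by omega, ?_, h8.mono fun _ hd => hd.leB c⟩
  exact says_of_le h6 (h4.mono fun _ hd => hd.leB c)

/-- all the names of a finite set are caught -/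
theorem catch_all {c : Ω} (hv : S.Val c) (A : Finset Ω) (hA : ∀ x ∈ A, S.Nme c x) {p : Cd Ω}
    (hp : S.CondB c p) (n : ℕ) :
    ∃ q, S.CondB c q ∧ S.Le q p ∧ ∃ (m : ℕ) (g : ℕ → Bool), n ≤ m ∧ ∀ x ∈ A, ∃ u v, n ≤ u ∧
      u < v ∧ v ≤ m ∧ S.Says (S.LeB c q) (S.nam c) u true ∧
      S.Says (S.LeB c q) (S.nam c) v true ∧
      ∀ k, u ≤ k → k < v → S.Says (S.LeB c q) x k (g k) := by
  classical
  induction A using Finset.induction_on with
  | empty => exact ⟨p, hp, Sys.Le.refl p, n, fun _ => false, le_rfl, by simp⟩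
  | insert x A hxA ih =>
    obtain ⟨q, h1, h2, m, g, h3, h4⟩ := ih fun y hy => hA y (Finset.mem_insert_of_mem hy)
    obtain ⟨r, u, v, h5, h6, h7, h8, h9, h10⟩ := decide_part hv h1 m
    obtain ⟨t, h11, h12, f, h13⟩ := decide_many (hA x (Finset.mem_insert_self x A)) v h5
    refine ⟨t, h11, h12.trans (h6.trans h2), v, fun k => if k < m then g k else f k, by omega, ?_⟩
    intro y hy
    rcases Finset.mem_insert.1 hy with rfl | hy
    · refine ⟨u, v, by omega, h8, le_rfl, says_of_le h12 h9, says_of_le h12 h10, ?_⟩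
      intro k hk1 hk2
      have : ¬ k < m := by omega
      simp only [this, if_false]
      exact h13 k hk2
    · obtain ⟨u', v', e1, e2, e3, e4, e5, e6⟩ := h4 y hy
      have h14 : S.Le t q := h12.trans h6
      refine ⟨u', v', e1, e2, by omega, says_of_le h14 e4, says_of_le h14 e5, ?_⟩
      intro k hk1 hk2
      have : k < m := by omega
      simp only [this, if_true]
      exact says_of_le h14 (e6 k hk1 hk2)

end EXT

/-- block EXT: extension of stems -/
theorem Sys.extend_one [WellFoundedLT Ω] {S : Sys Ω L} {e : Ω} {p : Cd Ω} (hp : S.CondB e p)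
    {c : Ω} (hc : c < e) (hv : S.Val c) (w : ℕ) :
    ∃ q, S.CondB e q ∧ S.Le q p ∧ w ≤ (q c).word.length ∧
      (∀ k < w, Flag (q c) k → Flag (p c) k) ∧ ∀ d, c < d → q d = p d := by
  classical
  have hside : ∀ x ∈ (p c).side, S.Nme c x := by
    intro x hx
    have h0 : p c ≠ 0 := by
      intro h0
      rw [h0] at hx
      exact absurd hx (Finset.notMem_empty _)
    exact ((hp.cond.2 c h0).1 hv.cat).2 x hx
  obtain ⟨l, hl⟩ : ∃ l, l = (p c).word.length := ⟨_, rfl⟩
  obtain ⟨q1, h1, h2, m, g, h3, h4⟩ := EXT.catch_all hv (p c).side hside (hp.cond.cut c) l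
  obtain ⟨q2, u0, v0, h5, h6, h7, h8, h9, h10⟩ := EXT.decide_part hv h1 (max m w)
  have hm : m ≤ u0 := le_trans (le_max_left _ _) h7
  have hw : w ≤ u0 := le_trans (le_max_right _ _) h7
  obtain ⟨sym, hsym⟩ : ∃ sym : ℕ → Sym, sym = fun k => if k < m then (g k, false) else
    (false, decide (u0 ≤ k)) := ⟨_, rfl⟩
  obtain ⟨β, hβ⟩ : ∃ β : List Sym, β = (List.range (v0 - l)).map fun j => sym (l + j) :=
    ⟨_, rfl⟩
  have hβl : β.length = v0 - l := by rw [hβ, List.length_map, List.length_range]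
  have hβk : ∀ k, l ≤ k → k < v0 → β[k - l]? = some (sym k) := by
    intro k hk1 hk2
    rw [hβ, List.getElem?_map, List.getElem?_range (by omega)]
    simp only [Option.map_some]
    congr 2
    omega
  have hok : S.OkC (S.LeB c q2) c (p c).side l β := by
    refine ⟨⟨u0, v0, by omega, h8, by omega, h9, h10, ?_⟩, ?_⟩
    · intro k hk1 hk2
      rw [hβk k (by omega) hk2, hsym]
      have : ¬ k < m := by omega
      simp [this, hk1]
    · intro x hx
      obtain ⟨u, v, e1, e2, e3, e4, e5, e6⟩ := h4 x hx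
      refine ⟨u, v, e1, e2, by omega, EXT.says_of_le h6 e4, EXT.says_of_le h6 e5, ?_⟩
      intro k hk1 hk2
      refine ⟨g k, false, ?_, EXT.says_of_le h6 (e6 k hk1 hk2)⟩
      rw [hβk k (by omega) (by omega), hsym]
      have : k < m := by omega
      simp [this]
  obtain ⟨x, hx⟩ : ∃ x : Ent Ω, x = ⟨(p c).stem ++ [β], (p c).side⟩ := ⟨_, rfl⟩
  have hxw : x.word = (p c).word ++ β := by
    rw [hx, Ent.word, Ent.word]
    simp
  have hent : S.EntOk c x := by
    refine ⟨fun _ => ⟨hv, fun ν hν => hside ν (by rw [hx] at hν; exact hν)⟩, fun h => ?_⟩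
    rw [hv.cat] at h
    exact absurd h (by simp)
  have hloc : S.Loc c q2 (S.LeB c q2) x (p c) := by
    refine ⟨by rw [hx], [β], by rw [hx], fun a β' c' hbs => ?_⟩
    have ha : a = [] ∧ β' = β := by
      rcases a with _ | ⟨b, a⟩
      · simp only [List.nil_append, List.cons.injEq] at hbs
        exact ⟨rfl, hbs.1.symm⟩
      · simp at hbs
    obtain ⟨rfl, rfl⟩ := ha
    rw [if_pos hv.cat, List.append_nil]
    rw [hl] at hok
    exact hok
  have hqp : S.LeB c q2 p := Sys.LeB_cut_right.1 ((h6.trans h2).leB c)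
  obtain ⟨k1, k2, k3⟩ := Sys.mix_le h5 hp.cond hqp hent hloc
  refine ⟨Sys.mix c q2 x p, Sys.CondB_iff'.2 ⟨k1, fun d hd => ?_⟩, k2, ?_, ?_, ?_⟩
  · rcases lt_trichotomy d c with h | h | h
    · exact h.trans hc
    · rw [h]; exact hc
    · rw [Sys.mix_gt h] at hd
      exact hp.lt hd
  · rw [Sys.mix_self, hxw, List.length_append, hβl, ← hl]
    omega
  · rintro k hk ⟨i, hi⟩
    rw [Sys.mix_self, hxw] at hi
    by_cases hkl : k < l
    · rw [List.getElem?_append_left (by omega)] at hi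
      exact ⟨i, hi⟩
    · rw [List.getElem?_append_right (by omega), ← hl, hβk k (by omega) (by omega), hsym] at hi
      exfalso
      by_cases hkm : k < m
      · simp [hkm] at hi
      · have : ¬ u0 ≤ k := by omega
        simp [hkm, this] at hi
  · intro d hd
    exact Sys.mix_gt hd _ _ _

theorem Sys.extend_many [WellFoundedLT Ω] {S : Sys Ω L} {e : Ω} {p : Cd Ω} (hp : S.CondB e p)
    (a : Finset Ω) (ha : ∀ c ∈ a, c < e ∧ S.Val c) (w : ℕ) :
    ∃ q, S.CondB e q ∧ S.Le q p ∧ (∀ c ∈ a, w ≤ (q c).word.length ∧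
      ∀ k < w, Flag (q c) k → Flag (p c) k) ∧ ∀ d, (∀ c ∈ a, c < d) → q d = p d := by
  classical
  induction a using Finset.induction_on_max with
  | empty => exact ⟨p, hp, Sys.Le.refl p, by simp, fun _ _ => rfl⟩
  | insert x a hx ih =>
    obtain ⟨q, h1, h2, h3, h4⟩ := ih fun c hc => ha c (Finset.mem_insert_of_mem hc)
    obtain ⟨hxe, hxv⟩ := ha x (Finset.mem_insert_self x a)
    obtain ⟨r, h5, h6, h7, h8, h9⟩ := Sys.extend_one h1 hxe hxv w
    have hqx : q x = p x := h4 x hx
    refine ⟨r, h5, h6.trans h2, ?_, ?_⟩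
    · intro c hc
      rcases Finset.mem_insert.1 hc with rfl | hc
      · refine ⟨h7, fun k hk hf => ?_⟩
        have := h8 k hk hf
        rwa [hqx] at this
      · obtain ⟨e1, e2⟩ := h3 c hc
        have hpre : (q c).word <+: (r c).word := h6.word c
        obtain ⟨t, ht⟩ := hpre
        refine ⟨by rw [← ht, List.length_append]; omega, fun k hk hf => e2 k hk ?_⟩
        obtain ⟨i, hi⟩ := hf
        rw [← ht, List.getElem?_append_left (by omega)] at hi
        exact ⟨i, hi⟩
    · intro d hd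
      rw [h9 d (hd x (Finset.mem_insert_self x a))]
      exact h4 d fun c hc => hd c (Finset.mem_insert_of_mem hc)

end Pool.Agent.Helper60.MA
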